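import Pool.Agent.W_448sk_h15.IEK

/-!
The identity (6,4) at the window j (MP_448cb3_co, case B): divisibility of the sum over a class
of configurations, with the simple edges outside `K`.
-/

namespace Pool.Agent.GaussPoset.Win.K2

set_option linter.unusedSectionVars false

open Finset I2

universe u

variable {P : Type u} [Fintype P] [PartialOrder P] [DecidableEq P] {r i : ℕ} {e : P → ℕ}

section cls

variable {K : Finset P} {psi : P → P} (hM : Mat P i K psi) (H : Gr P r) {C : Finset P} {Ω : Finset (P → ℕ)}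
  (hΩ : ∀ e ∈ Ω, ∀ y ∈ SK i K psi e, sw psi y e ∈ Ω)
include hM H hΩ

lemma step {D : Finset P} {y0 : P} (hD : D ⊆ dbL P i \ K) (hy0 : y0 ∈ dbL P i \ K) (hn : y0 ∉ D) :
    ∑ e ∈ Om i K psi Ω D, gg i K psi C D e =
      ∑ e ∈ Om i K psi Ω (insert y0 D), gg i K psi C (insert y0 D) e := by
  classical
  have inter : ∀ e : P → ℕ, y0 ∉ SK i K psi e → SK i K psi e ∩ insert y0 D = SK i K psi e ∩ D := by
    intro e h
    ext y
    simp only [mem_inter, mem_insert]
    constructor
    · rintro ⟨h1, rfl | h2⟩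
      · exact absurd h1 h
      · exact ⟨h1, h2⟩
    · rintro ⟨h1, h2⟩
      exact ⟨h1, Or.inr h2⟩
  have inter' : ∀ e : P → ℕ, y0 ∈ SK i K psi e →
      SK i K psi e ∩ insert y0 D = insert y0 (SK i K psi e ∩ D) := by
    intro e h
    ext y
    simp only [mem_inter, mem_insert]
    constructor
    · rintro ⟨h1, rfl | h2⟩
      · exact Or.inl rfl
      · exact Or.inr ⟨h1, h2⟩
    · rintro (rfl | ⟨h1, h2⟩)
      · exact ⟨h, Or.inl rfl⟩
      · exact ⟨h1, Or.inr h2⟩
  rw [← Finset.sum_filter_add_sum_filter_not (Om i K psi Ω D) (fun e => y0 ∈ SK i K psi e),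
    ← Finset.sum_filter_add_sum_filter_not (Om i K psi Ω (insert y0 D)) (fun e => y0 ∈ SK i K psi e)]
  congr 1
  · rw [← Finset.sum_filter_add_sum_filter_not
      ((Om i K psi Ω D).filter (fun e => y0 ∈ SK i K psi e)) (fun e => e y0 = 1)]
    have hA : ((Om i K psi Ω D).filter (fun e => y0 ∈ SK i K psi e)).filter (fun e => e y0 = 1) =
        (Om i K psi Ω (insert y0 D)).filter (fun e => y0 ∈ SK i K psi e) := by
      ext e
      unfold Om
      simp only [mem_filter]
      constructor
      · rintro ⟨⟨⟨h1, h2⟩, h3⟩, h4⟩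
        refine ⟨⟨h1, ?_⟩, h3⟩
        rw [inter' e h3]
        intro y hy
        rcases mem_insert.1 hy with rfl | hy
        · exact h4
        · exact h2 y hy
      · rintro ⟨⟨h1, h2⟩, h3⟩
        rw [inter' e h3] at h2
        exact ⟨⟨⟨h1, fun y hy => h2 y (mem_insert_of_mem hy)⟩, h3⟩, h2 y0 (mem_insert_self _ _)⟩
    rw [hA]
    have hB : ∑ e ∈ ((Om i K psi Ω D).filter (fun e => y0 ∈ SK i K psi e)).filter
        (fun e => ¬ e y0 = 1), gg i K psi C D e =
        ∑ e ∈ (Om i K psi Ω (insert y0 D)).filter (fun e => y0 ∈ SK i K psi e),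
          gg i K psi C D e * xi ^ mm e y0 := by
      symm
      refine Finset.sum_bij' (fun e _ => sw psi y0 e) (fun e _ => sw psi y0 e) ?_ ?_ ?_ ?_ ?_
      · intro e he
        rw [← hA] at he
        unfold Om at he ⊢
        simp only [mem_filter] at he ⊢
        obtain ⟨⟨⟨h1, h2⟩, h3⟩, h4⟩ := he
        have h5 := SK_sw hM H h3
        refine ⟨⟨⟨hΩ e h1 y0 h3, ?_⟩, by rw [h5]; exact h3⟩, ?_⟩
        · rw [h5]
          intro y hy
          have hyD := (mem_inter.1 hy).2
          have l1 := dL1 (hD hyD)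
          have l2 := mem_dbU'.1 (psi_lowK hM hy0).1
          rw [sw_ne e (by rintro rfl; exact hn hyD) (by rintro rfl; omega)]
          exact h2 y hy
        · rw [sw_y, psi0 hM H h3 h4]
          omega
      · intro e he
        rw [← hA]
        unfold Om at he ⊢
        simp only [mem_filter] at he ⊢
        obtain ⟨⟨⟨h1, h2⟩, h3⟩, h4⟩ := he
        have h5 := SK_sw hM H h3
        refine ⟨⟨⟨hΩ e h1 y0 h3, ?_⟩, by rw [h5]; exact h3⟩, ?_⟩
        · rw [h5]
          intro y hy
          have hyD := (mem_inter.1 hy).2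
          have l1 := dL1 (hD hyD)
          have l2 := mem_dbU'.1 (psi_lowK hM hy0).1
          rw [sw_ne e (by rintro rfl; exact hn hyD) (by rintro rfl; omega)]
          exact h2 y hy
        · rw [sw_y]
          rcases (mem_SK2.1 h3).2.one with h | h <;> omega
      · intro e _
        exact sw_sw _ _ _
      · intro e _
        exact sw_sw _ _ _
      · intro e he
        rw [← hA] at he
        unfold Om at he
        simp only [mem_filter] at he
        obtain ⟨⟨⟨h1, h2⟩, h3⟩, h4⟩ := he
        unfold gg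
        rw [SK_sw hM H h3, tC_sw hM H h3 h4]
        have h5 : ∏ y ∈ SK i K psi e ∩ D, (1 + xi ^ mm (sw psi y0 e) y) =
            ∏ y ∈ SK i K psi e ∩ D, (1 + xi ^ mm e y) := by
          refine Finset.prod_congr rfl fun y hy => ?_
          rw [mm_sw hM H hy0 (hD (mem_inter.1 hy).2)]
        rw [h5]
        ring
    rw [hB, ← Finset.sum_add_distrib]
    refine Finset.sum_congr rfl fun e he => ?_
    rw [mem_filter] at he
    unfold gg
    rw [inter' e he.2, Finset.prod_insert]
    · ring
    · intro h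
      exact hn (mem_inter.1 h).2
  · have hA : (Om i K psi Ω D).filter (fun e => ¬ y0 ∈ SK i K psi e) =
        (Om i K psi Ω (insert y0 D)).filter (fun e => ¬ y0 ∈ SK i K psi e) := by
      ext e
      unfold Om
      simp only [mem_filter]
      constructor
      · rintro ⟨⟨h1, h2⟩, h3⟩
        exact ⟨⟨h1, by rw [inter e h3]; exact h2⟩, h3⟩
      · rintro ⟨⟨h1, h2⟩, h3⟩
        rw [inter e h3] at h2
        exact ⟨⟨h1, h2⟩, h3⟩
    rw [hA]
    refine Finset.sum_congr rfl fun e he => ?_
    rw [mem_filter] at he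
    unfold gg
    rw [inter e he.2]

lemma all_steps (D : Finset P) (hD : D ⊆ dbL P i \ K) :
    ∑ e ∈ Ω, tC i C e = ∑ e ∈ Om i K psi Ω D, gg i K psi C D e := by
  classical
  induction D using Finset.induction_on with
  | empty =>
    have h1 : Om i K psi Ω ∅ = Ω := by
      unfold Om
      simp
    rw [h1]
    refine Finset.sum_congr rfl fun e _ => ?_
    unfold gg
    simp
  | insert y D hy ih =>
    rw [ih (fun x hx => hD (mem_insert_of_mem hx))]
    exact step hM H hΩ (fun x hx => hD (mem_insert_of_mem hx)) (hD (mem_insert_self _ _)) hy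

/-- divisibility of the sum over all classes -/
theorem class_dvd {N : ℕ} (hN : ∀ e ∈ Ω, dd ^ N ∣ tC i C e * dd ^ (SK i K psi e).card) :
    dd ^ N ∣ ∑ e ∈ Ω, tC i C e := by
  classical
  rw [all_steps hM H hΩ (dbL P i \ K) (Finset.Subset.refl _)]
  refine Finset.dvd_sum fun e he => ?_
  unfold Om at he
  rw [mem_filter] at he
  have h1 : SK i K psi e ∩ (dbL P i \ K) = SK i K psi e := by
    rw [Finset.inter_eq_left]
    intro y hy
    exact (mem_SK2.1 hy).1
  unfold gg
  rw [h1]
  refine (hN e he.1).trans (mul_dvd_mul_left _ ?_)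
  rw [← Finset.prod_const]
  refine Finset.prod_dvd_prod_of_dvd _ _ fun y hy => ?_
  exact dd_dvd_odd (mm_cases hM hy)

end cls

section wt

variable {K : Finset P} {psi : P → P} (hM : Mat P i K psi) (H : Gr P r)
include hM H

/-- the support of a configuration after a swap -/
lemma spt_sw {C : Finset P} (hC : Part (i + 1) C) (hs : Spt C e) {y : P} (hy : y ∈ SK i K psi e) :
    Spt C (sw psi y e) := by
  have hy0 := (mem_SK2.1 hy).1
  obtain ⟨p1, p2, p3⟩ := psi_lowK hM hy0
  have hl := dL1 hy0
  have hp := mem_dbU'.1 p1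
  obtain ⟨x, hx⟩ : (uc y).Nonempty := by
    rw [← card_pos]
    omega
  have hxl := lev_uc H hx
  have h1 : y ∈ C → psi y ∈ C := by
    intro h
    refine hC.up (hC.up h (mem_uc.1 hx)) ?_
    rw [← mem_dc, p2]
    exact hx
  have h2 : psi y ∈ C → y ∈ C := by
    intro h
    refine hC.dn (hC.dn (x := x) h (by omega) ?_) (by omega) (mem_uc.1 hx)
    rw [← mem_dc, p2]
    exact hx
  have h3 : y ∈ C ∧ psi y ∈ C := by
    rcases (mem_SK2.1 hy).2.one with h | h
    · have h4 : y ∈ C := by
        by_contra h5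
        have := hs y h5
        omega
      exact ⟨h4, h1 h4⟩
    · have h4 : psi y ∈ C := by
        by_contra h5
        have := hs _ h5
        omega
      exact ⟨h2 h4, h4⟩
  intro z hz
  rw [sw_ne e (by rintro rfl; exact hz h3.1) (by rintro rfl; exact hz h3.2)]
  exact hs z hz

end wt

end Pool.Agent.GaussPoset.Win.K2
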